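import Pool.Agent.Lib.MP_89fcdb_gt.Interfaces

/-!
# MP_89fcdb_gt, module TB: the part `r ≠ -1` of `B`
-/

open scoped BigOperators
open Set Topology

namespace Pool.Agent.Lib.MP_89fcdb_gt.H7

noncomputable section

/-- The complex number with given coordinates. -/
def cy (t : Fin 2 → ℝ) : ℂ := ⟨t 0, t 1⟩

theorem continuous_cy : Continuous cy := by
  have h : cy = fun t => (t 0 : ℂ) + (t 1 : ℂ) * Complex.I := by
    funext t
    apply Complex.ext <;> simp [cy]
  rw [h]
  fun_prop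

/-- `1 + |y|²`. -/
def cN (t : Fin 2 → ℝ) : ℝ := 1 + Complex.normSq (cy t)

theorem cN_pos (t : Fin 2 → ℝ) : 0 < cN t := by
  have := Complex.normSq_nonneg (cy t)
  unfold cN
  linarith

theorem continuous_cN : Continuous cN :=
  continuous_const.add (Complex.continuous_normSq.comp continuous_cy)

theorem sq_sqrt_cN (t : Fin 2 → ℝ) : Real.sqrt (cN t) ^ 2 = cN t := Real.sq_sqrt (cN_pos t).le

theorem sqrt_cN_pos (t : Fin 2 → ℝ) : 0 < Real.sqrt (cN t) := Real.sqrt_pos.mpr (cN_pos t)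

/-- The underlying map. -/
def fwd (p : S3 × (Fin 2 → ℝ)) : ℝ × ℂ × (ℂ × ℂ × ℂ) :=
  ((1 - Complex.normSq (cy p.2)) / cN p.2, 2 * (starRingEnd ℂ) (cy p.2) / (cN p.2 : ℝ),
    (p.1.1.1 / (Real.sqrt (cN p.2) : ℝ), p.1.1.1 * cy p.2 / (Real.sqrt (cN p.2) : ℝ), p.1.1.2))

theorem fwd_mem (p : S3 × (Fin 2 → ℝ)) : (fwd p).1 ^ 2 + Complex.normSq (fwd p).2.1 = 1 ∧
    n3 (fwd p).2.2 = 1 ∧
    (fwd p).2.1 * (fwd p).2.2.2.1 = (1 - (fwd p).1) * (fwd p).2.2.1 ∧
    (starRingEnd ℂ) (fwd p).2.1 * (fwd p).2.2.1 = (1 + (fwd p).1) * (fwd p).2.2.2.1 := by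
  obtain ⟨⟨⟨l, c⟩, hq⟩, t⟩ := p
  simp only at hq
  have hN := cN_pos t
  have hN0 : cN t ≠ 0 := hN.ne'
  have hs := sqrt_cN_pos t
  have hs0 : Real.sqrt (cN t) ≠ 0 := hs.ne'
  have hs2 := sq_sqrt_cN t
  have hNC : ((cN t : ℝ) : ℂ) ≠ 0 := Complex.ofReal_ne_zero.mpr hN0
  have hsC : ((Real.sqrt (cN t) : ℝ) : ℂ) ≠ 0 := Complex.ofReal_ne_zero.mpr hs0
  have hNdef : cN t = 1 + Complex.normSq (cy t) := rfl
  have hns : (starRingEnd ℂ) (cy t) * cy t = ((cN t : ℝ) : ℂ) - 1 := by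
    rw [← Complex.normSq_eq_conj_mul_self, hNdef]
    push_cast
    ring
  have hnr : Complex.normSq (cy t) = cN t - 1 := by
    rw [hNdef]
    ring
  have hrr : ((1 - Complex.normSq (cy t)) / cN t : ℝ) = 2 / cN t - 1 := by
    rw [hnr]
    field_simp
    ring
  have hr : (fwd (⟨(l, c), hq⟩, t)).1 = 2 / cN t - 1 := hrr
  refine ⟨?_, ?_, ?_, ?_⟩
  · rw [hr]
    simp only [fwd, Complex.normSq_div, Complex.normSq_mul, Complex.normSq_conj,
      Complex.normSq_ofReal, Complex.normSq_ofNat]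
    rw [hnr]
    field_simp
    ring
  · simp only [fwd, n3, Complex.normSq_div, Complex.normSq_mul, Complex.normSq_ofReal]
    rw [← pow_two, hs2, hnr]
    field_simp
    linear_combination (cN t) * hq
  · rw [hr]
    simp only [fwd]
    push_cast
    field_simp
    linear_combination (2 * l) * hns
  · rw [hr]
    simp only [fwd, map_div₀, map_mul, Complex.conj_conj, Complex.conj_ofReal, map_ofNat]
    push_cast
    field_simp
    ring

theorem continuous_fwd : Continuous fwd := by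
  unfold fwd
  have h1 := continuous_cy
  have h2 := continuous_cN
  have h3 : Continuous (fun p : S3 × (Fin 2 → ℝ) => cy p.2) := h1.comp continuous_snd
  have h4 : Continuous (fun p : S3 × (Fin 2 → ℝ) => cN p.2) := h2.comp continuous_snd
  have h5 : Continuous (fun p : S3 × (Fin 2 → ℝ) => Real.sqrt (cN p.2)) :=
    Real.continuous_sqrt.comp h4
  have h6 : Continuous (fun p : S3 × (Fin 2 → ℝ) => (Real.sqrt (cN p.2) : ℂ)) :=
    Complex.continuous_ofReal.comp h5
  have h7 : Continuous (fun p : S3 × (Fin 2 → ℝ) => ((cN p.2 : ℝ) : ℂ)) :=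
    Complex.continuous_ofReal.comp h4
  have h8 : Continuous (fun p : S3 × (Fin 2 → ℝ) => p.1.1.1) := by fun_prop
  have h9 : Continuous (fun p : S3 × (Fin 2 → ℝ) => p.1.1.2) := by fun_prop
  refine Continuous.prodMk ?_ (Continuous.prodMk ?_ (Continuous.prodMk ?_
    (Continuous.prodMk ?_ h9)))
  · exact (continuous_const.sub (Complex.continuous_normSq.comp h3)).div h4
      (fun p => (cN_pos p.2).ne')
  · exact (continuous_const.mul (Complex.continuous_conj.comp h3)).div h7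
      (fun p => Complex.ofReal_ne_zero.mpr (cN_pos p.2).ne')
  · exact h8.div h6 (fun p => Complex.ofReal_ne_zero.mpr (sqrt_cN_pos p.2).ne')
  · exact (h8.mul h3).div h6 (fun p => Complex.ofReal_ne_zero.mpr (sqrt_cN_pos p.2).ne')

/-- The map of the statement. -/
def jB : C(S3 × (Fin 2 → ℝ), B) := ⟨fun p => ⟨fwd p, fwd_mem p⟩, continuous_fwd.subtype_mk _⟩

theorem one_add_r (p : S3 × (Fin 2 → ℝ)) : 1 + (fwd p).1 = 2 / cN p.2 := by
  have hN := (cN_pos p.2).ne'
  have hnr : Complex.normSq (cy p.2) = cN p.2 - 1 := by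
    unfold cN
    ring
  simp only [fwd]
  rw [hnr]
  field_simp
  ring

theorem jB_ne (p : S3 × (Fin 2 → ℝ)) : (jB p).1.1 ≠ -1 := by
  intro h
  have h1 := one_add_r p
  have h2 : (fwd p).1 = -1 := h
  rw [h2] at h1
  have h3 := cN_pos p.2
  have : 0 < 2 / cN p.2 := by positivity
  linarith

/-- The subtype. -/
abbrev B' : Type := {b : B // b.1.1 ≠ -1}

theorem isOpen_B' : IsOpen {b : B | b.1.1 ≠ -1} := by
  have h : Continuous (fun b : B => b.1.1) := by fun_prop
  exact isOpen_ne.preimage h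

theorem B'_pos (b : B') : 0 < 1 + b.1.1.1 := by
  have h := b.1.2.1
  have h0 := Complex.normSq_nonneg b.1.1.2.1
  have h1 : b.1.1.1 ^ 2 ≤ 1 := by linarith
  have h2 : -1 ≤ b.1.1.1 := by nlinarith
  have h3 : b.1.1.1 ≠ -1 := b.2
  have h4 : -1 < b.1.1.1 := lt_of_le_of_ne h2 (Ne.symm h3)
  linarith

/-- The coordinate `y`. -/
def by' (b : B') : ℂ := (starRingEnd ℂ) b.1.1.2.1 / ((1 + b.1.1.1 : ℝ) : ℂ)

/-- The inverse. -/
def bwd (b : B') : S3 × (Fin 2 → ℝ) :=
  (⟨(b.1.1.2.2.1 * (Real.sqrt (2 / (1 + b.1.1.1)) : ℝ), b.1.1.2.2.2.2), by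
    have hp := B'_pos b
    obtain ⟨⟨⟨r, z, u1, u2, u3⟩, h1, h2, h3, h4⟩, hb⟩ := b
    simp only at hp h1 h2 h3 h4 hb ⊢
    have hs : Real.sqrt (2 / (1 + r)) ^ 2 = 2 / (1 + r) := Real.sq_sqrt (by positivity)
    rw [Complex.normSq_mul, Complex.normSq_ofReal, ← pow_two, hs]
    have h5 := congrArg Complex.normSq h4
    rw [Complex.normSq_mul, Complex.normSq_conj, Complex.normSq_mul] at h5
    have h6 : Complex.normSq (1 + (r : ℂ)) = (1 + r) ^ 2 := by
      rw [show (1 + (r : ℂ)) = ((1 + r : ℝ) : ℂ) by push_cast; ring, Complex.normSq_ofReal]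
      ring
    rw [h6] at h5
    have h7 : Complex.normSq z = (1 - r) * (1 + r) := by linarith
    have h8 : (1 - r) * Complex.normSq u1 = (1 + r) * Complex.normSq u2 := by
      have : (1 + r) * ((1 - r) * Complex.normSq u1) =
          (1 + r) * ((1 + r) * Complex.normSq u2) := by
        rw [h7] at h5
        linarith
      exact mul_left_cancel₀ hp.ne' this
    simp only [n3] at h2
    field_simp
    linear_combination (1 + r) * h2 + h8⟩, ![(by' b).re, (by' b).im])

theorem cy_bwd (b : B') : cy (bwd b).2 = by' b := by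
  apply Complex.ext <;> simp [cy, bwd]

theorem normSq_by' (b : B') : Complex.normSq (by' b) = (1 - b.1.1.1) / (1 + b.1.1.1) := by
  have hp := B'_pos b
  unfold by'
  rw [Complex.normSq_div, Complex.normSq_conj, Complex.normSq_ofReal]
  have h1 := b.1.2.1
  have h7 : Complex.normSq b.1.1.2.1 = (1 - b.1.1.1) * (1 + b.1.1.1) := by linarith
  rw [h7]
  field_simp

theorem cN_bwd (b : B') : cN (bwd b).2 = 2 / (1 + b.1.1.1) := by
  have hp := B'_pos b
  unfold cN
  rw [cy_bwd, normSq_by']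
  field_simp
  ring

theorem fwd_bwd (b : B') : fwd (bwd b) = b.1.1 := by
  have hp := B'_pos b
  have hpC : ((1 + b.1.1.1 : ℝ) : ℂ) ≠ 0 := Complex.ofReal_ne_zero.mpr hp.ne'
  have hpC' : (1 + (b.1.1.1 : ℂ)) ≠ 0 := by
    have := hpC
    push_cast at this
    exact this
  have hs : 0 < Real.sqrt (2 / (1 + b.1.1.1)) := Real.sqrt_pos.mpr (by positivity)
  have hsC : ((Real.sqrt (2 / (1 + b.1.1.1)) : ℝ) : ℂ) ≠ 0 :=
    Complex.ofReal_ne_zero.mpr hs.ne'
  have h4 := b.1.2.2.2.2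
  have hu1 : (bwd b).1.1.1 = b.1.1.2.2.1 * (Real.sqrt (2 / (1 + b.1.1.1)) : ℝ) := rfl
  have hu3 : (bwd b).1.1.2 = b.1.1.2.2.2.2 := rfl
  unfold fwd
  rw [cN_bwd, cy_bwd, hu1, hu3, normSq_by']
  refine Prod.ext ?_ (Prod.ext ?_ (Prod.ext ?_ (Prod.ext ?_ rfl)))
  · simp only
    field_simp
    ring
  · simp only [by', map_div₀, Complex.conj_conj, Complex.conj_ofReal]
    push_cast
    field_simp
  · simp only
    field_simp
  · simp only [by']
    push_cast
    field_simp
    linear_combination h4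

theorem bwd_fwd (p : S3 × (Fin 2 → ℝ)) (h : (⟨fwd p, fwd_mem p⟩ : B).1.1 ≠ -1) :
    bwd ⟨⟨fwd p, fwd_mem p⟩, h⟩ = p := by
  have hN := cN_pos p.2
  have hNC : ((cN p.2 : ℝ) : ℂ) ≠ 0 := Complex.ofReal_ne_zero.mpr hN.ne'
  have hs := sqrt_cN_pos p.2
  have hsC : ((Real.sqrt (cN p.2) : ℝ) : ℂ) ≠ 0 := Complex.ofReal_ne_zero.mpr hs.ne'
  have hr := one_add_r p
  have hy : by' ⟨⟨fwd p, fwd_mem p⟩, h⟩ = cy p.2 := by
    unfold by'
    simp only
    rw [hr]
    simp only [fwd, map_div₀, map_mul, Complex.conj_conj, Complex.conj_ofReal, map_ofNat]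
    push_cast
    field_simp
  have hq : 2 / (1 + (fwd p).1) = cN p.2 := by
    rw [hr]
    field_simp
  have h2 : (bwd ⟨⟨fwd p, fwd_mem p⟩, h⟩).2 = p.2 := by
    have : (bwd ⟨⟨fwd p, fwd_mem p⟩, h⟩).2 =
      ![(by' ⟨⟨fwd p, fwd_mem p⟩, h⟩).re, (by' ⟨⟨fwd p, fwd_mem p⟩, h⟩).im] := rfl
    rw [this, hy]
    funext i
    fin_cases i <;> simp [cy]
  refine Prod.ext (Subtype.ext (Prod.ext ?_ rfl)) h2
  change (fwd p).2.2.1 * (Real.sqrt (2 / (1 + (fwd p).1)) : ℝ) = p.1.1.1
  rw [hq]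
  simp only [fwd]
  field_simp

theorem continuous_bwd : Continuous bwd := by
  have h1 : Continuous (fun b : B' => b.1.1.1) := by fun_prop
  have h2 : Continuous (fun b : B' => 2 / (1 + b.1.1.1)) :=
    continuous_const.div (continuous_const.add h1) (fun b => (B'_pos b).ne')
  have h3 : Continuous (fun b : B' => ((Real.sqrt (2 / (1 + b.1.1.1)) : ℝ) : ℂ)) :=
    Complex.continuous_ofReal.comp (Real.continuous_sqrt.comp h2)
  have h4 : Continuous (fun b : B' => b.1.1.2.2.1) := by fun_prop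
  have h5 : Continuous (fun b : B' => b.1.1.2.2.2.2) := by fun_prop
  have h6 : Continuous (fun b : B' => b.1.1.2.1) := by fun_prop
  have h7 : Continuous by' := by
    unfold by'
    exact (Complex.continuous_conj.comp h6).div
      (Complex.continuous_ofReal.comp (continuous_const.add h1))
      (fun b => Complex.ofReal_ne_zero.mpr (B'_pos b).ne')
  refine Continuous.prodMk ((Continuous.prodMk (h4.mul h3) h5).subtype_mk _) ?_
  refine continuous_pi (fun i => ?_)
  fin_cases i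
  · exact Complex.continuous_re.comp h7
  · exact Complex.continuous_im.comp h7

/-- The homeomorphism. -/
def homeoB : S3 × (Fin 2 → ℝ) ≃ₜ B' where
  toFun p := ⟨jB p, jB_ne p⟩
  invFun := bwd
  left_inv p := bwd_fwd p (jB_ne p)
  right_inv b := Subtype.ext (Subtype.ext (fwd_bwd b))
  continuous_toFun := jB.continuous.subtype_mk _
  continuous_invFun := continuous_bwd

/-- [TB] the part `r ≠ -1` of `B`. -/
theorem trivB : TrivBStatement := by
  refine ⟨jB, ?_, ?_, ?_⟩
  · have h : (jB : S3 × (Fin 2 → ℝ) → B) = Subtype.val ∘ homeoB := rfl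
    rw [h]
    exact isOpen_B'.isOpenEmbedding_subtypeVal.comp homeoB.isOpenEmbedding
  · ext b
    constructor
    · rintro ⟨p, rfl⟩
      exact jB_ne p
    · intro hb
      exact ⟨bwd ⟨b, hb⟩, Subtype.ext (fwd_bwd ⟨b, hb⟩)⟩
  · intro w t
    have hN := cN_pos t
    have hr : (jB (w, t)).1.1 = (1 - Complex.normSq (cy t)) / cN t := rfl
    constructor
    · rintro rfl
      rw [hr]
      have : cy 0 = 0 := by apply Complex.ext <;> simp [cy]
      simp [cN, this]
    · intro h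
      rw [hr, div_eq_one_iff_eq hN.ne'] at h
      unfold cN at h
      have h1 : Complex.normSq (cy t) = 0 := by linarith
      have h2 : cy t = 0 := Complex.normSq_eq_zero.mp h1
      funext i
      fin_cases i
      · exact congrArg Complex.re h2
      · exact congrArg Complex.im h2

end

end Pool.Agent.Lib.MP_89fcdb_gt.H7
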